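import Pool.Agent.W186.AI.Spec

set_option autoImplicit false
set_option linter.all false

namespace Pool.Agent.W918.AI.GAM

open Complex Pool.Agent.W186.AI
open scoped Real

theorem logc {s : ℂ} (hs : 0 < s.re) : log ((starRingEnd ℂ) s) = (starRingEnd ℂ) (log s) := by
  apply Complex.log_conj
  intro h
  rw [Complex.arg_eq_pi_iff] at h
  linarith [h.1]

theorem ggc (n : ℕ) {s : ℂ} (hs : 0 < s.re) :
    H370.DG.gg n ((starRingEnd ℂ) s) = (starRingEnd ℂ) (H370.DG.gg n s) := by
  unfold H370.DG.gg
  have h : (starRingEnd ℂ) s + ((n : ℂ) + 2) = (starRingEnd ℂ) (s + ((n : ℂ) + 2)) := by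
    rw [map_add, map_add, map_natCast, map_ofNat]
  have hn : (0 : ℝ) ≤ n := Nat.cast_nonneg n
  have h2 : 0 < (s + ((n : ℂ) + 2)).re := by
    simp only [add_re, natCast_re, re_ofNat]
    linarith
  rw [h, logc h2]
  simp only [map_sub, map_add, map_mul, Complex.conj_ofReal]

theorem lGc {s : ℂ} (hs : 0 < s.re) :
    H370.DG.lG ((starRingEnd ℂ) s) = (starRingEnd ℂ) (H370.DG.lG s) := by
  unfold H370.DG.lG
  have h1 : (starRingEnd ℂ) s + 1 = (starRingEnd ℂ) (s + 1) := by rw [map_add, map_one]
  have h2 : 0 < (s + 1).re := by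
    simp only [add_re, one_re]
    linarith
  rw [h1, logc hs, logc h2, map_add, map_sub, map_neg, Complex.conj_tsum]
  congr 1
  exact tsum_congr fun n => ggc n hs

theorem main : S_GAM := by
  refine ⟨?_, ?_, ?_⟩
  · intro s hs
    have hs' : 1 < s.re := hs
    have h1 : DifferentiableAt ℂ (fun s : ℂ => log s) s :=
      (hasDerivAt_id s).clog (Or.inl (by show 0 < s.re; linarith)) |>.differentiableAt
    have h2 : DifferentiableAt ℂ (fun s : ℂ => log (s - 1)) s :=
      ((hasDerivAt_id s).sub_const 1).clog (Or.inl (by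
        show 0 < (s - 1).re
        simp only [sub_re, one_re]
        linarith)) |>.differentiableAt
    have hre : 0 < (s / 2).re := by
      have : (s / 2).re = s.re / 2 := by simp
      rw [this]
      linarith
    have h3 : DifferentiableAt ℂ (fun s : ℂ => H370.DG.lG (s / 2)) s := by
      have h4 := (H370.DG.hasDerivAt_lG hre).differentiableAt
      have h5 : DifferentiableAt ℂ (fun s : ℂ => s / 2) s := by fun_prop
      exact DifferentiableAt.comp s h4 h5
    have h6 : DifferentiableAt ℂ (fun s : ℂ => s / 2 * ((Real.log π : ℝ) : ℂ)) s := by fun_prop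
    have h7 : DifferentiableAt ℂ g s := by
      exact ((h1.add h2).sub h6).add h3
    exact h7.differentiableWithinAt
  · intro s hs
    have hre : 0 < (s / 2).re := by
      have : (s / 2).re = s.re / 2 := by simp
      rw [this]
      linarith
    have hs0 : s ≠ 0 := by
      intro h
      rw [h] at hs
      simp at hs
      linarith
    have hs1 : s - 1 ≠ 0 := by
      intro h
      have h' : s = 1 := by linear_combination h
      rw [h'] at hs
      simp at hs
    unfold g
    rw [exp_add, exp_sub, exp_add, exp_log hs0, exp_log hs1, H370.DG.exp_lG hre, Gammaℝ_def]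
    have hpi : (π : ℂ) ≠ 0 := by exact_mod_cast Real.pi_ne_zero
    rw [cpow_def_of_ne_zero hpi, ← Complex.ofReal_log Real.pi_pos.le, div_eq_mul_inv, ← exp_neg]
    have h8 : -(s / 2 * ((Real.log π : ℝ) : ℂ)) = ((Real.log π : ℝ) : ℂ) * (-s / 2) := by ring
    rw [h8]
    ring
  · intro s hs
    have hre : 0 < (s / 2).re := by
      have : (s / 2).re = s.re / 2 := by simp
      rw [this]
      linarith
    unfold g
    have h1 : (starRingEnd ℂ) s - 1 = (starRingEnd ℂ) (s - 1) := by rw [map_sub, map_one]
    have h2 : (starRingEnd ℂ) s / 2 = (starRingEnd ℂ) (s / 2) := by rw [map_div₀, map_ofNat]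
    have h3 : 0 < (s - 1).re := by
      simp only [sub_re, one_re]
      linarith
    rw [h1, h2, logc (by linarith), logc h3, lGc hre]
    simp only [map_sub, map_add, map_mul, Complex.conj_ofReal]

end Pool.Agent.W918.AI.GAM
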